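import Pool.Agent.N848.LT.Stm

/-!
LT/IND: the property `PP` for composites `k F`, by induction over the degree of `F`.
-/

set_option autoImplicit false

namespace Pool.Agent.N899.LT

open NumberField IsDedekindDomain Module Pool.Agent.H637R2.Leo Pool.Agent.Y18.LC Pool.Agent.N848.LT

/-! ### degree one -/

section base

variable {k K : Type} [Field k] [NumberField k] [Field K] [NumberField K] [Algebra k K]

omit [NumberField k] [NumberField K] in
theorem int_bij (h : Function.Surjective (algebraMap k K)) :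
    Function.Bijective (algebraMap (𝓞 k) (𝓞 K)) := by
  constructor
  · exact FaithfulSMul.algebraMap_injective (𝓞 k) (𝓞 K)
  · intro y
    obtain ⟨x, hx⟩ := h (y : K)
    have hy : IsIntegral ℤ (algebraMap k K x) := by
      rw [hx]
      exact y.isIntegral_coe
    have hxi : IsIntegral ℤ x := by
      have h1 : IsIntegral ℤ x ↔ IsIntegral ℤ (algebraMap k K x) :=
        (isIntegral_algebraMap_iff (algebraMap k K).injective).symm
      exact h1.2 hy
    refine ⟨⟨x, hxi⟩, ?_⟩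
    apply RingOfIntegers.ext
    change algebraMap k K x = (y : K)
    exact hx

theorem exists_above (h : Function.Surjective (algebraMap k K)) (v : HeightOneSpectrum (𝓞 k)) :
    ∃ w : HeightOneSpectrum (𝓞 K), ∀ x : k, w.valuation K (algebraMap k K x) = v.valuation k x := by
  have hb := int_bij h
  have hp : (v.asIdeal.map (algebraMap (𝓞 k) (𝓞 K))).IsPrime := by
    refine Ideal.map_isPrime_of_surjective hb.2 ?_
    rw [(RingHom.injective_iff_ker_eq_bot _).1 hb.1]
    exact bot_le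
  have hne : v.asIdeal.map (algebraMap (𝓞 k) (𝓞 K)) ≠ ⊥ := by
    rw [Ne, Ideal.map_eq_bot_iff_of_injective hb.1]
    exact v.ne_bot
  let w : HeightOneSpectrum (𝓞 K) := ⟨_, hp, hne⟩
  have hlo : w.asIdeal.LiesOver v.asIdeal := by
    rw [Ideal.liesOver_iff]
    change v.asIdeal = (v.asIdeal.map (algebraMap (𝓞 k) (𝓞 K))).comap (algebraMap (𝓞 k) (𝓞 K))
    rw [Ideal.comap_map_of_bijective _ hb]
  have he : v.asIdeal.ramificationIdx' w.asIdeal = 1 :=
    Ideal.ramificationIdx'_map_self_eq_one hp.ne_top hne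
  refine ⟨w, fun x => ?_⟩
  have h1 := HeightOneSpectrum.valuation_liesOver K v w x
  rw [he, pow_one] at h1
  exact h1.symm

theorem noUnr_up (h : Function.Surjective (algebraMap k K)) (hk : NoUnr k) (b : K) (hb : b ≠ 0)
    (hU : ∀ v : HeightOneSpectrum (𝓞 K), Un v b) : IsSquare b := by
  obtain ⟨a, rfl⟩ := h b
  have ha : a ≠ 0 := by
    rintro rfl
    exact hb (map_zero _)
  obtain ⟨c, hc⟩ := hk a ha fun v => by
    obtain ⟨w, hw⟩ := exists_above h v
    obtain ⟨y, h1, h2⟩ := hU w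
    obtain ⟨z, rfl⟩ := h y
    refine ⟨z, ?_, ?_⟩
    · rw [← hw]
      simpa only [map_mul, map_pow] using h1
    · rw [← hw, ← hw 4]
      simpa only [map_mul, map_pow, map_sub, map_one, map_ofNat] using h2
  exact ⟨algebraMap k K c, by rw [hc, map_mul]⟩

end base

/-- a rational prime in a prime ideal -/
theorem exists_prime_mem {F : Type} [Field F] [NumberField F] (u : HeightOneSpectrum (𝓞 F)) :
    ∃ q : ℕ, q.Prime ∧ (q : 𝓞 F) ∈ u.asIdeal := by
  obtain ⟨q, hq⟩ := CharP.exists (𝓞 F ⧸ u.asIdeal)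
  have hfin : Finite (𝓞 F ⧸ u.asIdeal) := u.asIdeal.finiteQuotientOfFreeOfNeBot u.ne_bot
  have := u.isPrime
  have hdom : IsDomain (𝓞 F ⧸ u.asIdeal) := Ideal.Quotient.isDomain _
  refine ⟨q, CharP.char_is_prime (𝓞 F ⧸ u.asIdeal) q, ?_⟩
  rw [← Ideal.Quotient.eq_zero_iff_mem, map_natCast]
  exact CharP.cast_eq_zero _ q

/-- subfields of fields in which `q` is unramified -/
theorem unram_sub {F F₁ : Type} [Field F] [NumberField F] [Field F₁] [NumberField F₁]
    [Algebra F₁ F] {q : ℕ} (hq : q ≠ 0) (h : Unram F q) : Unram F₁ q := by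
  have hq0 : (q : F₁) ≠ 0 := Nat.cast_ne_zero.2 hq
  rintro x ⟨n, hn⟩
  have h1 : algebraMap (𝓞 F₁) (𝓞 F) x ∈ Ideal.span {(q : 𝓞 F)} := by
    refine h ⟨n, ?_⟩
    rw [Ideal.mem_span_singleton] at hn ⊢
    have h2 := map_dvd (algebraMap (𝓞 F₁) (𝓞 F)) hn
    rw [map_natCast, map_pow] at h2
    exact h2
  rw [Ideal.mem_span_singleton] at h1 ⊢
  obtain ⟨z, hz⟩ := h1
  have hz' : algebraMap F₁ F (x : F₁) = (q : F) * (z : F) := by
    have h3 := congrArg (algebraMap (𝓞 F) F) hz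
    rw [map_mul, map_natCast] at h3
    exact h3
  have hz2 : algebraMap F₁ F ((x : F₁) / q) = (z : F) := by
    have hqF : (q : F) ≠ 0 := Nat.cast_ne_zero.2 hq
    rw [map_div₀, map_natCast, hz', mul_div_cancel_left₀ _ hqF]
  have hint : IsIntegral ℤ ((x : F₁) / q) := by
    have h4 : IsIntegral ℤ ((x : F₁) / q) ↔ IsIntegral ℤ (algebraMap F₁ F ((x : F₁) / q)) :=
      (isIntegral_algebraMap_iff (algebraMap F₁ F).injective).symm
    rw [h4, hz2]
    exact z.isIntegral_coe
  refine ⟨⟨(x : F₁) / q, hint⟩, ?_⟩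
  apply RingOfIntegers.ext
  change (x : F₁) = ((q : 𝓞 F₁) : F₁) * ((x : F₁) / q)
  have h5 : ((q : 𝓞 F₁) : F₁) = (q : F₁) := map_natCast (algebraMap (𝓞 F₁) F₁) q
  rw [h5, mul_div_cancel₀ _ hq0]

/-! ### the quadratic subextension -/

/-- a quadratic subextension at the top of a Galois extension of degree `2 ^ (r + 1)` -/
theorem exists_top (r : ℕ) (F : Type) [Field F] [NumberField F] (hG : IsGalois ℚ F)
    (hd : finrank ℚ F = 2 ^ (r + 1)) :
    ∃ (F₁ : IntermediateField ℚ F) (m : F₁) (s : F), IsGalois ℚ F₁ ∧ finrank ℚ F₁ = 2 ^ r ∧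
      finrank F₁ F = 2 ∧ s ^ 2 = algebraMap F₁ F m ∧ ¬ IsSquare m := by
  have hcard : Nat.card (F ≃ₐ[ℚ] F) = 2 ^ (r + 1) := by
    rw [IsGalois.card_aut_eq_finrank, hd]
  have hp : IsPGroup 2 (F ≃ₐ[ℚ] F) := IsPGroup.of_card hcard
  have hnt : Nontrivial (F ≃ₐ[ℚ] F) := by
    rw [← Finite.one_lt_card_iff_nontrivial, hcard]
    exact Nat.one_lt_two_pow (Nat.succ_ne_zero r)
  have hfact : Fact (Nat.Prime 2) := ⟨Nat.prime_two⟩
  have hcn : Nontrivial (Subgroup.center (F ≃ₐ[ℚ] F)) := hp.center_nontrivial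
  have hpc : IsPGroup 2 (Subgroup.center (F ≃ₐ[ℚ] F)) := hp.to_subgroup _
  obtain ⟨n, hn⟩ := IsPGroup.iff_card.1 hpc
  have hn0 : n ≠ 0 := by
    rintro rfl
    rw [pow_zero] at hn
    have h1 := Finite.one_lt_card_iff_nontrivial.2 hcn
    omega
  have hdvd : 2 ∣ Nat.card (Subgroup.center (F ≃ₐ[ℚ] F)) := by
    rw [hn]
    exact dvd_pow_self 2 hn0
  obtain ⟨z, hz⟩ := exists_prime_orderOf_dvd_card' 2 hdvd
  obtain ⟨g, hgdef⟩ : ∃ g : F ≃ₐ[ℚ] F, g = (z : F ≃ₐ[ℚ] F) := ⟨_, rfl⟩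
  have hg2 : orderOf g = 2 := by
    rw [hgdef, Subgroup.orderOf_coe, hz]
  have hgc : g ∈ Subgroup.center (F ≃ₐ[ℚ] F) := by
    rw [hgdef]
    exact z.2
  have hnorm : (Subgroup.zpowers g).Normal := by
    constructor
    rintro x hx y
    obtain ⟨j, rfl⟩ := Subgroup.mem_zpowers_iff.1 hx
    have h1 : g ^ j ∈ Subgroup.center (F ≃ₐ[ℚ] F) := zpow_mem hgc j
    have h2 : y * g ^ j * y⁻¹ = g ^ j := by
      rw [(Subgroup.mem_center_iff.1 h1 y), mul_inv_cancel_right]
    rw [h2]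
    exact zpow_mem (Subgroup.mem_zpowers g) j
  obtain ⟨F₁, hF₁⟩ : ∃ F₁ : IntermediateField ℚ F, F₁ = IntermediateField.fixedField (Subgroup.zpowers g) :=
    ⟨_, rfl⟩
  have hgal : IsGalois ℚ F₁ := by
    rw [hF₁]
    exact IsGalois.of_fixedField_normal_subgroup _
  have h2 : finrank F₁ F = 2 := by
    rw [hF₁, IntermediateField.finrank_fixedField_eq_card, Nat.card_zpowers, hg2]
  have hr : finrank ℚ F₁ = 2 ^ r := by
    have h3 : finrank ℚ F₁ * finrank F₁ F = finrank ℚ F := finrank_mul_finrank ℚ F₁ F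
    rw [h2, hd, pow_succ] at h3
    exact Nat.eq_of_mul_eq_mul_right two_pos h3
  have hfix : ∀ x : F, x ∈ F₁ ↔ g x = x := by
    intro x
    rw [hF₁, IntermediateField.mem_fixedField_iff]
    constructor
    · intro h
      exact h g (Subgroup.mem_zpowers g)
    · rintro h f hf
      obtain ⟨j, rfl⟩ := Subgroup.mem_zpowers_iff.1 hf
      have h4 : g ∈ MulAction.stabilizer (F ≃ₐ[ℚ] F) x := h
      exact zpow_mem h4 j
  have hgg : ∀ x : F, g (g x) = x := by
    intro x
    have h5 : g ^ 2 = 1 := by rw [← hg2, pow_orderOf_eq_one]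
    have h6 : (g ^ 2) x = x := by rw [h5]; rfl
    rw [pow_two] at h6
    exact h6
  obtain ⟨x, hx⟩ : ∃ x : F, g x ≠ x := by
    by_contra hcon
    push Not at hcon
    have h7 : g = 1 := AlgEquiv.ext hcon
    rw [h7, orderOf_one] at hg2
    omega
  obtain ⟨s, hs⟩ : ∃ s : F, s = x - g x := ⟨_, rfl⟩
  have hs0 : s ≠ 0 := by
    rw [hs]
    exact sub_ne_zero.2 (Ne.symm hx)
  have hgs : g s = - s := by
    rw [hs, map_sub, hgg, neg_sub]
  have hs2 : s ^ 2 ∈ F₁ := by
    rw [hfix, map_pow, hgs, neg_sq]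
  refine ⟨F₁, ⟨s ^ 2, hs2⟩, s, hgal, hr, h2, rfl, ?_⟩
  rintro ⟨w, hw⟩
  have h8 : s ^ 2 = (w : F) ^ 2 := by
    have h9 := congrArg (fun t : F₁ => (t : F)) hw
    simp only [IntermediateField.coe_mul] at h9
    rw [h9, pow_two]
  have h10 : s ∈ F₁ := by
    rcases sq_eq_sq_iff_eq_or_eq_neg.1 h8 with h | h
    · rw [h]; exact w.2
    · rw [h]; exact neg_mem w.2
  rw [hfix, hgs] at h10
  exact hs0 (self_eq_neg.1 h10.symm)

/-- the same with an abstract field -/
theorem exists_top' (r : ℕ) (F : Type) [Field F] [NumberField F] (hG : IsGalois ℚ F)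
    (hd : finrank ℚ F = 2 ^ (r + 1)) :
    ∃ (F₁ : Type) (_ : Field F₁) (_ : NumberField F₁) (_ : Algebra F₁ F) (m : F₁) (s : F),
      IsGalois ℚ F₁ ∧ finrank ℚ F₁ = 2 ^ r ∧
      finrank F₁ F = 2 ∧ s ^ 2 = algebraMap F₁ F m ∧ ¬ IsSquare m := by
  obtain ⟨F₁, m, s, h1, h2, h3, h4, h5⟩ := exists_top r F hG hd
  exact ⟨F₁, inferInstance, inferInstance, inferInstance, m, s, h1, h2, h3, h4, h5⟩

/-! ### the step -/

/-- one quadratic step -/
theorem step (hSTEP : S_STEP) (hUNQ : S_UNQ) (hNSG : S_NSG) (hDEG : S_DEG) (r : ℕ)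
    (k F₁ F K₁ K : Type) [Field k] [NumberField k] [Field F₁] [NumberField F₁] [Field F]
    [NumberField F] [Field K₁] [NumberField K₁] [Field K] [NumberField K] [Algebra k K]
    [Algebra k K₁] [Algebra F K] [Algebra F₁ F] [Algebra F₁ K₁] [Algebra F₁ K] [Algebra K₁ K]
    [IsScalarTower k K₁ K] [IsScalarTower F₁ F K] [IsScalarTower F₁ K₁ K]
    (hG : IsGalois ℚ F) (hd : finrank ℚ F = 2 ^ (r + 1)) (hG₁ : IsGalois ℚ F₁)
    (hd₁ : finrank ℚ F₁ = 2 ^ r)
    (htop : IntermediateField.adjoin k (Set.range (algebraMap F K)) = ⊤)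
    (htop₁ : IntermediateField.adjoin k (Set.range (algebraMap F₁ K₁)) = ⊤)
    (hodd : Odd (finrank ℚ k)) (hq : ∀ q : ℕ, q.Prime → Unram F q ∨ NSQ k q)
    (m : F₁) (s : F) (hs : s ^ 2 = algebraMap F₁ F m) (hm : ¬ IsSquare m)
    (h2 : finrank F₁ F = 2) (ih : PP F₁ K₁) : PP F K := by
  obtain ⟨h3, h4⟩ := hDEG (r + 1) k F K hG hd htop hodd
  obtain ⟨h5, h6⟩ := hDEG r k F₁ K₁ hG₁ hd₁ htop₁ hodd
  have h7 : finrank K₁ K = 2 := by
    have h8 : finrank k K₁ * finrank K₁ K = finrank k K := finrank_mul_finrank k K₁ K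
    rw [h6, h4, pow_succ] at h8
    exact Nat.eq_of_mul_eq_mul_left (pow_pos two_pos r) h8
  have hm0 : m ≠ 0 := by
    rintro rfl
    exact hm ⟨0, by rw [mul_zero]⟩
  refine hSTEP F₁ F K₁ K m s hs hm h2 h7 (by rw [h5]; exact hodd) ?_ ih
  intro u
  obtain ⟨q, hqp, hqu⟩ := exists_prime_mem u
  rcases hq q hqp with h | h
  · exact Or.inl (hUNQ F₁ F m s hs hm0 q hqp h u hqu)
  · exact Or.inr (hNSG r k F₁ K₁ hG₁ hd₁ htop₁ hodd q hqp h u hqu)

/-- LT/IND -/
theorem t_IND (hSTEP : S_STEP) (hUNQ : S_UNQ) (hNSG : S_NSG) (hDEG : S_DEG) : S_IND := by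
  intro r
  induction r with
  | zero =>
    intro k F K _ _ _ _ _ _ _ _ hG hd htop hodd hq hk
    rw [pow_zero] at hd
    have hsF : Function.Surjective (algebraMap ℚ F) := by
      have h1 : (⊥ : Subalgebra ℚ F) = ⊤ := Subalgebra.bot_eq_top_of_finrank_eq_one hd
      exact (Algebra.bijective_algebraMap_iff.2 h1.symm).2
    have hsub : Set.range (algebraMap F K) ⊆ ((⊥ : IntermediateField k K) : Set K) := by
      rintro _ ⟨x, rfl⟩
      obtain ⟨c, rfl⟩ := hsF x
      rw [SetLike.mem_coe, IntermediateField.mem_bot]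
      refine ⟨(c : k), ?_⟩
      rw [map_ratCast, eq_ratCast, map_ratCast]
    have hbot : (⊥ : IntermediateField k K) = ⊤ := by
      rw [← htop, eq_comm, ← le_bot_iff]
      exact IntermediateField.adjoin_le_iff.2 hsub
    have hs : Function.Surjective (algebraMap k K) := by
      intro x
      have hx : x ∈ (⊥ : IntermediateField k K) := by
        rw [hbot]
        exact IntermediateField.mem_top
      exact IntermediateField.mem_bot.1 hx
    intro b hb hU _
    exact noUnr_up hs hk b hb hU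
  | succ r ih =>
    intro k F K _ _ _ _ _ _ _ _ hG hd htop hodd hq hk
    obtain ⟨F₁, _, _, _, m, s, hG₁, hd₁, h2, hs, hm⟩ := exists_top' r F hG hd
    let E : IntermediateField k K :=
      IntermediateField.adjoin k (Set.range fun x : F₁ => algebraMap F K (algebraMap F₁ F x))
    let φ : F₁ →+* E :=
      { toFun := fun x => ⟨algebraMap F K (algebraMap F₁ F x),
          IntermediateField.subset_adjoin k _ ⟨x, rfl⟩⟩
        map_one' := Subtype.ext (by simp)
        map_mul' := fun x y => Subtype.ext (by simp)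
        map_zero' := Subtype.ext (by simp)
        map_add' := fun x y => Subtype.ext (by simp) }
    let a1 : Algebra F₁ E := φ.toAlgebra
    let a2 : Algebra F₁ K := ((algebraMap F K).comp (algebraMap F₁ F)).toAlgebra
    have t1 : IsScalarTower F₁ F K := IsScalarTower.of_algebraMap_eq fun _ => rfl
    have t2 : IsScalarTower F₁ E K := IsScalarTower.of_algebraMap_eq fun _ => rfl
    have htop₁ : IntermediateField.adjoin k (Set.range (algebraMap F₁ E)) = ⊤ := by
      have h3 : (IntermediateField.adjoin k (Set.range (algebraMap F₁ E))).map E.val = E := by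
        rw [IntermediateField.adjoin_map]
        have h4 : (E.val : E → K) '' Set.range (algebraMap F₁ E) =
            Set.range fun x : F₁ => algebraMap F K (algebraMap F₁ F x) := by
          rw [← Set.range_comp]
          rfl
        rw [h4]
      rw [eq_top_iff]
      rintro ⟨x, hx⟩ -
      have h5 : x ∈ (IntermediateField.adjoin k (Set.range (algebraMap F₁ E))).map E.val := by
        rw [h3]
        exact hx
      obtain ⟨y, hy, hyx⟩ := (IntermediateField.mem_map _).1 h5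
      have h6 : y = ⟨x, hx⟩ := Subtype.ext hyx
      rw [← h6]
      exact hy
    have hPP : PP F₁ E := ih k F₁ E hG₁ hd₁ htop₁ hodd
      (fun q hqp => (hq q hqp).imp (fun h => unram_sub hqp.ne_zero h) id) hk
    exact step hSTEP hUNQ hNSG hDEG r k F₁ F E K hG hd hG₁ hd₁ htop htop₁ hodd hq m s hs hm h2 hPP

end Pool.Agent.N899.LT
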